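import Pool.Agent.V11298.KD.Dom
import Pool.Agent.Results.MP_6d896a_gt.Exchangeable
import Pool.Agent.Results.MP_6d896a_gt.Particles
import Pool.Agent.Results.MP_6d896a_gt.RadialBlocks
import Pool.Agent.Results.MP_6d896a_gt.HierarchicallyExchangeable

/-!
# KLS for arbitrary measures dominated by symmetric log-concave measures

The Kannan-Lovasz-Simonovits inequality, in the equivalent (E. Milman) form of a variance bound for Lipschitz
functions, for all probability measures `ν` (log-concave or not, without any symmetry) on `ℝ^n` with `ν ≤ M μ`,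
where `μ` is any log-concave probability measure in one of the symmetric classes of the starting files:
invariant under permutations of the coordinates; systems of indistinguishable particles of `q` species in `ℝ^d`;
radial in each vector and symmetric in blocks; hierarchically exchangeable. The constant is `C M³` times the
constant of the class; it does not depend on the dimension. For example this holds for the uniform measure on every
convex body (every set of positive measure) `K` that is contained in a permutation invariant convex body of volume at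
most `M |K|`, such as the intersection of a permutation invariant body with any halfspace through its centroid.

Proof. If the variance of `⟪θ, X⟫` for `ν` is at most `s`, then the slab of half width `2 √s` around the mean has
`μ`-measure at least `3 / (4 M)`. By the inequality of Prekopa and Leindler a slab of half width `r` and measure `p`
forces exponential tails on the scale `r / p`, so the variance for `μ` is at most `114 M² s`. The inequality for
`μ` bounds the variance of a Lipschitz function, which grows by at most the factor `M` from `μ` to `ν`.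
-/

set_option autoImplicit false

namespace Pool.Agent.Results.MP_6d896a_gt.LargeSubsets

open MeasureTheory Set ProbabilityTheory
open Pool.Agent.V11298.KD
open scoped ENNReal InnerProductSpace

/-- Every `C¹` function with `‖∇ f‖ ≤ 1` is in `L²(ν)` and has variance at most `κ s`, for every `s > 0` such that
the covariance matrix of `ν` has norm at most `s` (`CovLe`). This is the inequality of KLS (for log-concave `ν`,
up to absolute constants, by a theorem of E. Milman) with the constant `κ`. -/
def KLS {ι : Type} [Fintype ι] (ν : Measure (EuclideanSpace ℝ ι)) (κ : ℝ) : Prop :=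
  ∀ s : ℝ, 0 < s → CovLe ν s → ∀ f : EuclideanSpace ℝ ι → ℝ, ContDiff ℝ 1 f →
    (∀ x, ‖fderiv ℝ f x‖ ≤ 1) → MemLp f 2 ν ∧ variance f ν ≤ κ * s

/-- the uniform probability measure on `K` -/
noncomputable def unif {ι : Type} [Fintype ι] (K : Set (EuclideanSpace ℝ ι)) :
    Measure (EuclideanSpace ℝ ι) :=
  (volume K)⁻¹ • volume.restrict K

/-- **KLS for measures dominated by symmetric log-concave measures.**
(1) For every log-concave probability density `ρ` on `ℝ^ι` whose measure `mu ρ` satisfies KLS with the constant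
`κ`, every probability measure `ν` with `ν A ≤ M (mu ρ) A` for all measurable `A` (`Dom`) satisfies KLS with the
constant `114 κ M³`.
(2)-(5) So there is an absolute constant `C` such that every probability measure `ν` dominated by `M μ`, `M ≥ 1`,
satisfies KLS with the constant `C M³` if `μ` is log-concave and invariant under permutations of the coordinates of
`ℝ^n`, with the constant `C q d⁴ (1 + log q)² M³` if `μ` is the law of `N` particles of `q` species in `ℝ^d`, with
`C (1 + T)² M³` if `μ` is radial in each vector and symmetric in blocks with `∑_β exp (- T k_β m_β) ≤ 1`, and with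
`C^(k²) ∏_j (1 + log N_j / m_j)² M³` if `μ` is hierarchically exchangeable of depth `k`.
(6) For every convex set `K'` in `ℝ^n` which is invariant under permutations of the coordinates, bounded and
measurable, and every measurable `K ⊆ K'` with `0 < |K|` and `|K'| ≤ M |K|`, the uniform measure on `K` satisfies
KLS with the constant `C M³`. -/
theorem result :
    (∀ (ι : Type) [Fintype ι] (ρ : EuclideanSpace ℝ ι → ℝ), LC ρ → IsProbabilityMeasure (mu ρ) →
      ∀ κ : ℝ, KLS (mu ρ) κ → ∀ (ν : Measure (EuclideanSpace ℝ ι)) (M : ℝ), IsProbabilityMeasure ν → 1 ≤ M →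
      Dom ν (mu ρ) M → KLS ν (114 * κ * M ^ 3)) ∧
    (∃ C : ℝ, 0 < C ∧
      (∀ n : ℕ, 1 ≤ n → ∀ ρ : EuclideanSpace ℝ (Fin n) → ℝ, Exchangeable.ExchDensity ρ →
        IsProbabilityMeasure (mu ρ) → ∀ (ν : Measure (EuclideanSpace ℝ (Fin n))) (M : ℝ),
        IsProbabilityMeasure ν → 1 ≤ M → Dom ν (mu ρ) M → KLS ν (C * M ^ 3)) ∧
      (∀ N d q : ℕ, 1 ≤ N → 1 ≤ d → ∀ b : Fin N → Fin q, Function.Surjective b →
        ∀ ρ : Particles.Conf N d → ℝ, Particles.SpeciesDensity b ρ →
        IsProbabilityMeasure (mu ρ) → ∀ (ν : Measure (Particles.Conf N d)) (M : ℝ),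
        IsProbabilityMeasure ν → 1 ≤ M → Dom ν (mu ρ) M →
        KLS ν (C * (q * (d : ℝ) ^ 4 * (1 + Real.log q) ^ 2) * M ^ 3)) ∧
      (∀ (b : ℕ) (k m : Fin b → ℕ), (∀ β, 1 ≤ k β) → (∀ β, 1 ≤ m β) →
        ∀ T : ℝ, 0 ≤ T → ∑ β, Real.exp (-(T * (k β * m β))) ≤ 1 →
        ∀ ρ : RadialBlocks.Space b k m → ℝ, RadialBlocks.RadialDensity ρ →
        IsProbabilityMeasure (mu ρ) → ∀ (ν : Measure (RadialBlocks.Space b k m)) (M : ℝ),
        IsProbabilityMeasure ν → 1 ≤ M → Dom ν (mu ρ) M → KLS ν (C * (1 + T) ^ 2 * M ^ 3)) ∧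
      (∀ (k : ℕ) (m : Fin k → ℕ), 1 ≤ k → (∀ j, 1 ≤ m j) →
        ∀ ρ : HierarchicallyExchangeable.Arr m → ℝ, HierarchicallyExchangeable.TreeDensity m ρ →
        IsProbabilityMeasure (mu ρ) → ∀ (ν : Measure (HierarchicallyExchangeable.Arr m)) (M : ℝ),
        IsProbabilityMeasure ν → 1 ≤ M → Dom ν (mu ρ) M →
        KLS ν (C ^ (k ^ 2) * HierarchicallyExchangeable.factor m * M ^ 3)) ∧
      (∀ n : ℕ, 1 ≤ n → ∀ K K' : Set (EuclideanSpace ℝ (Fin n)), Convex ℝ K' → Bornology.IsBounded K' →
        MeasurableSet K' → (∀ σ : Equiv.Perm (Fin n), ∀ x y : EuclideanSpace ℝ (Fin n),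
          (∀ i, y i = x (σ i)) → x ∈ K' → y ∈ K') →
        MeasurableSet K → K ⊆ K' → 0 < volume K → ∀ M : ℝ, 1 ≤ M →
        volume K' ≤ ENNReal.ofReal M * volume K → KLS (unif K) (C * M ^ 3))) := by
  have base : ∀ (ι : Type) [Fintype ι] (ρ : EuclideanSpace ℝ ι → ℝ), LC ρ → IsProbabilityMeasure (mu ρ) →
      ∀ κ : ℝ, KLS (mu ρ) κ → ∀ (ν : Measure (EuclideanSpace ℝ ι)) (M : ℝ), IsProbabilityMeasure ν → 1 ≤ M →
      Dom ν (mu ρ) M → KLS ν (114 * κ * M ^ 3) := by
    intro ι _ ρ h h1 κ hκ ν M hν hM hd s hs hcov f hf hf1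
    exact transfer h h1 hκ ν hM hd hs hcov hf hf1
  obtain ⟨C1, hC1, H1⟩ := Exchangeable.result
  obtain ⟨C2, hC2, H2⟩ := Particles.result
  obtain ⟨C3, hC3, H3⟩ := RadialBlocks.result
  obtain ⟨C4, hC4, H4⟩ := HierarchicallyExchangeable.result
  have mono : ∀ {ι : Type} [Fintype ι] (ν : Measure (EuclideanSpace ℝ ι)) {κ κ' : ℝ}, κ ≤ κ' → KLS ν κ →
      KLS ν κ' := by
    intro ι _ ν κ κ' hκ h s hs hcov f hf hf1
    obtain ⟨h1, h2⟩ := h s hs hcov f hf hf1
    exact ⟨h1, h2.trans (mul_le_mul_of_nonneg_right hκ hs.le)⟩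
  set C : ℝ := max (114 * C1) (max (114 * C2) (max (114 * C3) (114 * (1 + C4)))) with hC
  have c1 : 114 * C1 ≤ C := le_max_left _ _
  have c2 : 114 * C2 ≤ C := (le_max_left _ _).trans (le_max_right _ _)
  have c3 : 114 * C3 ≤ C := ((le_max_left _ _).trans (le_max_right _ _)).trans (le_max_right _ _)
  have c4 : 114 * (1 + C4) ≤ C := ((le_max_right _ _).trans (le_max_right _ _)).trans (le_max_right _ _)
  have hC0 : 0 < C := lt_of_lt_of_le (by positivity) c1
  have exch : ∀ n : ℕ, 1 ≤ n → ∀ ρ : EuclideanSpace ℝ (Fin n) → ℝ, Exchangeable.ExchDensity ρ →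
        IsProbabilityMeasure (mu ρ) → ∀ (ν : Measure (EuclideanSpace ℝ (Fin n))) (M : ℝ),
        IsProbabilityMeasure ν → 1 ≤ M → Dom ν (mu ρ) M → KLS ν (C * M ^ 3) := by
    intro n hn ρ hρ hμ ν M hν hM hd
    have h1 : KLS (mu ρ) C1 := fun s hs hcov f hf hf1 => (H1 n hn ρ hρ (mu ρ) rfl hμ s hs hcov f hf).1 hf1
    have h2 := base (Fin n) ρ ⟨hρ.nonneg, hρ.meas, hρ.logc⟩ hμ C1 h1 ν M hν hM hd
    exact mono ν (mul_le_mul_of_nonneg_right c1 (by positivity)) h2
  refine ⟨base, C, hC0, exch, ?_, ?_, ?_, ?_⟩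
  · intro N d q hN hd b hb ρ hρ hμ ν M hν hM hdom
    have hq : 1 ≤ q := by
      have h1 : 0 < q := Fin.pos (b ⟨0, hN⟩)
      exact h1
    have hlog : 0 ≤ Real.log q := Real.log_nonneg (by exact_mod_cast hq)
    have h1 : KLS (mu ρ) (C2 * (q * (d : ℝ) ^ 4 * (1 + Real.log q) ^ 2)) := fun s hs hcov f hf hf1 =>
      (H2 N d q hN hd b hb ρ hρ (mu ρ) rfl hμ s hs hcov f hf).1 hf1
    have h2 := base _ ρ ⟨hρ.nonneg, hρ.meas, hρ.logc⟩ hμ _ h1 ν M hν hM hdom
    refine mono ν ?_ h2
    have h3 : 0 ≤ (q * (d : ℝ) ^ 4 * (1 + Real.log q) ^ 2) := by positivity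
    have h4 : 0 ≤ M ^ 3 := by positivity
    calc 114 * (C2 * (q * (d : ℝ) ^ 4 * (1 + Real.log q) ^ 2)) * M ^ 3
        = (114 * C2) * (q * (d : ℝ) ^ 4 * (1 + Real.log q) ^ 2) * M ^ 3 := by ring
      _ ≤ C * (q * (d : ℝ) ^ 4 * (1 + Real.log q) ^ 2) * M ^ 3 := by gcongr
  · intro b k m hk hm T hT0 hT ρ hρ hμ ν M hν hM hdom
    have h1 : KLS (mu ρ) (C3 * (1 + T) ^ 2) := fun s hs hcov f hf hf1 =>
      H3 b k m hk hm T hT0 hT ρ hρ (mu ρ) rfl hμ s hs hcov f hf hf1
    have h2 := base _ ρ ⟨hρ.nonneg, hρ.meas, hρ.logc⟩ hμ _ h1 ν M hν hM hdom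
    refine mono ν ?_ h2
    have h4 : 0 ≤ M ^ 3 := by positivity
    calc 114 * (C3 * (1 + T) ^ 2) * M ^ 3 = (114 * C3) * (1 + T) ^ 2 * M ^ 3 := by ring
      _ ≤ C * (1 + T) ^ 2 * M ^ 3 := by gcongr
  · intro k m hk hm ρ hρ hμ ν M hν hM hdom
    have h1 : KLS (mu ρ) (C4 ^ (k ^ 2) * HierarchicallyExchangeable.factor m) := fun s hs hcov f hf hf1 =>
      (H4 k m hk hm ρ hρ (mu ρ) rfl hμ s hs hcov f hf).1 hf1
    have h2 := base _ ρ ⟨hρ.nonneg, hρ.meas, hρ.logc⟩ hμ _ h1 ν M hν hM hdom
    refine mono ν ?_ h2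
    have h3 : 0 ≤ HierarchicallyExchangeable.factor m := by
      unfold HierarchicallyExchangeable.factor
      exact Finset.prod_nonneg fun j _ => sq_nonneg _
    have h4 : 0 ≤ M ^ 3 := by positivity
    have h5 : 114 * C4 ^ (k ^ 2) ≤ C ^ (k ^ 2) := by
      have h6 : 1 ≤ k ^ 2 := Nat.one_le_pow _ _ (by omega)
      calc 114 * C4 ^ (k ^ 2) ≤ 114 ^ (k ^ 2) * (1 + C4) ^ (k ^ 2) := by
            have h7 : (114 : ℝ) ≤ 114 ^ (k ^ 2) := le_self_pow₀ (by norm_num) (by omega)
            have h8 : C4 ^ (k ^ 2) ≤ (1 + C4) ^ (k ^ 2) := pow_le_pow_left₀ hC4.le (by linarith) _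
            gcongr
        _ = (114 * (1 + C4)) ^ (k ^ 2) := by rw [mul_pow]
        _ ≤ C ^ (k ^ 2) := pow_le_pow_left₀ (by positivity) c4 _
    calc 114 * (C4 ^ (k ^ 2) * HierarchicallyExchangeable.factor m) * M ^ 3
        = (114 * C4 ^ (k ^ 2)) * HierarchicallyExchangeable.factor m * M ^ 3 := by ring
      _ ≤ C ^ (k ^ 2) * HierarchicallyExchangeable.factor m * M ^ 3 := by gcongr
  · intro n hn K K' hconv hbd hmeas' hinv hmeas hsub hpos M hM hvol
    have hfin : volume K' ≠ ⊤ := hbd.measure_lt_top.ne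
    have hfinK : volume K ≠ ⊤ := ne_top_of_le_ne_top hfin (measure_mono hsub)
    have hpos' : 0 < volume K' := lt_of_lt_of_le hpos (measure_mono hsub)
    set V : ℝ := (volume K').toReal with hV
    have hV0 : 0 < V := ENNReal.toReal_pos hpos'.ne' hfin
    set ρ : EuclideanSpace ℝ (Fin n) → ℝ := K'.indicator (fun _ => V⁻¹) with hρ
    have hρK : mu ρ = (volume K')⁻¹ • volume.restrict K' := by
      unfold mu
      have e1 : (fun x => ENNReal.ofReal (ρ x)) = K'.indicator (fun _ => (volume K')⁻¹) := by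
        funext x
        by_cases hx : x ∈ K'
        · rw [hρ, indicator_of_mem hx, indicator_of_mem hx, ENNReal.ofReal_inv_of_pos hV0, hV,
            ENNReal.ofReal_toReal hfin]
        · rw [hρ, indicator_of_notMem hx, indicator_of_notMem hx, ENNReal.ofReal_zero]
      rw [e1, withDensity_indicator hmeas', withDensity_const]
    have hprob : IsProbabilityMeasure (mu ρ) := by
      refine ⟨?_⟩
      rw [hρK, Measure.smul_apply, Measure.restrict_apply_univ, smul_eq_mul,
        ENNReal.inv_mul_cancel hpos'.ne' hfin]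
    have hprobK : IsProbabilityMeasure (unif K) := by
      refine ⟨?_⟩
      unfold unif
      rw [Measure.smul_apply, Measure.restrict_apply_univ, smul_eq_mul,
        ENNReal.inv_mul_cancel hpos.ne' hfinK]
    have hexch : Exchangeable.ExchDensity ρ := by
      refine ⟨fun x => indicator_nonneg (fun _ _ => by positivity) x, measurable_const.indicator hmeas', ?_, ?_⟩
      · intro x y t ht0 ht1
        have h1t : 0 < 1 - t := by linarith
        by_cases hx : x ∈ K'
        · by_cases hy : y ∈ K'
          · have hxy : (1 - t) • x + t • y ∈ K' := hconv hx hy h1t.le ht0.le (by ring)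
            rw [hρ, indicator_of_mem hx, indicator_of_mem hy, indicator_of_mem hxy,
              ← Real.rpow_add (by positivity)]
            norm_num
          · rw [hρ, indicator_of_notMem hy, Real.zero_rpow ht0.ne', mul_zero]
            exact indicator_nonneg (fun _ _ => by positivity) _
        · rw [hρ, indicator_of_notMem hx, Real.zero_rpow h1t.ne', zero_mul]
          exact indicator_nonneg (fun _ _ => by positivity) _
      · intro σ x y hxy
        by_cases hx : x ∈ K'
        · rw [hρ, indicator_of_mem hx, indicator_of_mem (hinv σ x y hxy hx)]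
        · have hy : y ∉ K' := by
            intro hy
            apply hx
            refine hinv σ⁻¹ y x (fun i => ?_) hy
            rw [hxy]
            simp
          rw [hρ, indicator_of_notMem hx, indicator_of_notMem hy]
    refine exch n hn ρ hexch hprob (unif K) M hprobK hM ?_
    intro A hA
    rw [hρK]
    unfold unif
    rw [Measure.smul_apply, Measure.smul_apply, smul_eq_mul, smul_eq_mul, Measure.restrict_apply hA,
      Measure.restrict_apply hA]
    have h1 : volume (A ∩ K) ≤ volume (A ∩ K') := measure_mono (inter_subset_inter_right _ hsub)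
    have h2 : (volume K)⁻¹ ≤ ENNReal.ofReal M * (volume K')⁻¹ := by
      rw [ENNReal.inv_le_iff_le_mul (fun h => absurd h (ENNReal.mul_ne_top ENNReal.ofReal_ne_top
        (ENNReal.inv_ne_top.2 hpos'.ne'))) (fun h => absurd h hfinK)]
      calc (1 : ℝ≥0∞) = volume K' * (volume K')⁻¹ := (ENNReal.mul_inv_cancel hpos'.ne' hfin).symm
        _ ≤ (ENNReal.ofReal M * volume K) * (volume K')⁻¹ := mul_le_mul_left hvol _
        _ = volume K * (ENNReal.ofReal M * (volume K')⁻¹) := by ring
    calc (volume K)⁻¹ * volume (A ∩ K) ≤ (ENNReal.ofReal M * (volume K')⁻¹) * volume (A ∩ K') :=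
          mul_le_mul' h2 h1
      _ = ENNReal.ofReal M * ((volume K')⁻¹ * volume (A ∩ K')) := by rw [mul_assoc]

end Pool.Agent.Results.MP_6d896a_gt.LargeSubsets
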