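import Pool.Agent.V11317.NC.Sum9
import Pool.Agent.Results.MP_6d896a_gt.LargeSubsets

/-!
# KLS for direct sums of bodies which satisfy KLS

Let `ℝ^n = ⊕_j ℝ^(n_j)`, `j = 1, …, q`, and let `B_j ⊂ ℝ^(n_j)` be bodies with the barycentre at the origin. We consider
the convex bodies `K ⊂ ℝ^n` such that every nonempty section of `K` parallel to `ℝ^(n_j)` is a multiple `r B_j`, for
every `j`. Examples are the `ψ`-direct sums `{x : ψ(‖x_1‖, …, ‖x_q‖) ≤ 1}` (where `‖·‖` is the gauge of `B_j`), such
as the `ℓ_p` sums of the `B_j`. If the uniform measures on the `B_j` satisfy the inequality of KLS in the variance form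
with the constant `k`, then the uniform measure on `K` satisfies it with the constant `3 q (k + 2 q + 2)`, whatever the
dimensions `n_j` and without any symmetry of the `B_j`.

Proof. Let `X` be uniform on `K`. Given the other components, `X_j` is uniform on `g_j B_j` where `g_j` is a concave
function of the other components. So `X_j = g_j U_j` where `U_j` is uniform on `B_j` and independent of the other
components. The density of the other components is proportional to `g_j^(n_j)`; by the theorem of Prekopa and Leindler,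
applied to `t^m` on the hypograph of `g_j`, the variance of `g_j` is at most `2 / (n_j + 2)` times its second moment,
in every dimension. So replacing `g_j` by its mean moves `X_j` in `L²` by at most `√2` times the square root of the
norm of the covariance matrix. This gives the inequality for the law of `(X_j)_{j ∈ S ∪ {i}}` from the one for
`(X_j)_{j ∈ S}`: the conditional variance for fixed `g_i` is bounded by the inequality for `B_i`, and what
remains is a function of `(X_j)_{j ∈ S}` up to the error just described. Induction over `S`.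
-/

set_option autoImplicit false

namespace Pool.Agent.Results.MP_6d896a_gt.DirectSums

open MeasureTheory Set ProbabilityTheory
open scoped ENNReal InnerProductSpace Pointwise
open LargeSubsets (KLS unif)

/-- compact, with nonempty interior, with the barycentre at the origin -/
structure Centred {ι : Type} [Fintype ι] (B : Set (EuclideanSpace ℝ ι)) : Prop where
  compact : IsCompact B
  int : (interior B).Nonempty
  bary : ∫ x in B, x = 0

/-- `B` is contained in a bounded measurable convex set `B'`, invariant under the permutations of the coordinates,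
with `|B'| ≤ M |B|`, `M ≥ 1` -/
def LargeInInvariant {ι : Type} [Fintype ι] (B : Set (EuclideanSpace ℝ ι)) (M : ℝ) : Prop :=
  1 ≤ M ∧ ∃ B' : Set (EuclideanSpace ℝ ι), Convex ℝ B' ∧ Bornology.IsBounded B' ∧ MeasurableSet B' ∧
    (∀ σ : Equiv.Perm ι, ∀ x y : EuclideanSpace ℝ ι, (∀ i, y i = x (σ i)) → x ∈ B' → y ∈ B') ∧
    B ⊆ B' ∧ volume B' ≤ ENNReal.ofReal M * volume B

section blocks

variable {κ J : Type} [Fintype κ] [DecidableEq J] (c : κ → J)

/-- The coordinates of `ℝ^κ` are divided into blocks, the block `j` consists of the `i` with `c i = j`. This is the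
point `x` with its component in the block `j` replaced by `y`. -/
noncomputable def replaceBlock (j : J) (x : EuclideanSpace ℝ κ) (y : EuclideanSpace ℝ {i // c i = j}) :
    EuclideanSpace ℝ κ := WithLp.toLp 2 fun i => if h : c i = j then y ⟨i, h⟩ else x i

/-- the component of `x` in the block `j` -/
noncomputable def part (j : J) (x : EuclideanSpace ℝ κ) : EuclideanSpace ℝ {i // c i = j} :=
  WithLp.toLp 2 fun i => x i.1

/-- `K` is a convex body and every nonempty section of `K` parallel to the block `j` is a multiple of `B j`, for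
every `j` -/
structure IsDirectSum (B : ∀ j, Set (EuclideanSpace ℝ {i // c i = j})) (K : Set (EuclideanSpace ℝ κ)) : Prop where
  conv : Convex ℝ K
  compact : IsCompact K
  int : (interior K).Nonempty
  sec : ∀ j, ∀ x ∈ K, ∃ r : ℝ, 0 ≤ r ∧ {y | replaceBlock c j x y ∈ K} = r • B j

end blocks

/-- `ψ` is continuous, and on the nonnegative orthant it is convex and monotone and `{ψ ≤ 1}` is bounded;
`ψ 0 < 1` -/
structure Psi {J : Type} (ψ : (J → ℝ) → ℝ) : Prop where
  cont : Continuous ψ
  conv : ConvexOn ℝ {r | ∀ j, 0 ≤ r j} ψ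
  mono : ∀ r r' : J → ℝ, (∀ j, 0 ≤ r j) → (∀ j, r j ≤ r' j) → ψ r ≤ ψ r'
  zero : ψ 0 < 1
  bdd : ∃ R : ℝ, ∀ r : J → ℝ, (∀ j, 0 ≤ r j) → ψ r ≤ 1 → ∀ j, r j ≤ R

/-- the class of the large subsets of permutation invariant sets, for every index type -/
theorem large : ∃ C : ℝ, 0 < C ∧ ∀ (ι : Type) [Fintype ι] [Nonempty ι] (B : Set (EuclideanSpace ℝ ι)),
    IsCompact B → (interior B).Nonempty → ∀ M : ℝ, LargeInInvariant B M → KLS (unif B) (C * M ^ 3) := by
  obtain ⟨C, hC, -, -, -, -, H⟩ := LargeSubsets.result.2
  refine ⟨C, hC, ?_⟩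
  intro ι _ _ B hBc hBi M ⟨hM, B', hconv, hbd, hmeas, hinv, hsub, hvol⟩
  obtain ⟨n, ⟨e⟩⟩ : ∃ n : ℕ, Nonempty (ι ≃ Fin n) := ⟨_, ⟨Fintype.equivFin ι⟩⟩
  have hn : 1 ≤ n := by
    have h1 : Nonempty (Fin n) := ⟨e (Classical.arbitrary ι)⟩
    have h2 : 0 < Fintype.card (Fin n) := Fintype.card_pos
    rw [Fintype.card_fin] at h2
    exact h2
  obtain ⟨T, hT⟩ : ∃ T : EuclideanSpace ℝ (Fin n) ≃ₗᵢ[ℝ] EuclideanSpace ℝ ι,
      ∀ x i, T x i = x (e i) := ⟨LinearIsometryEquiv.piLpCongrLeft 2 ℝ ℝ e.symm, fun x i => rfl⟩
  have hTmp : MeasurePreserving T volume volume := T.measurePreserving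
  have hBm := hBc.measurableSet
  have hv : ∀ A : Set (EuclideanSpace ℝ ι), MeasurableSet A → volume (T ⁻¹' A) = volume A := fun A hA =>
    hTmp.measure_preimage hA.nullMeasurableSet
  have hpos : 0 < volume B := Measure.measure_pos_of_nonempty_interior volume hBi
  have h1 := H n hn (T ⁻¹' B) (T ⁻¹' B') (hconv.linear_preimage T.toLinearEquiv.toLinearMap)
    (by
      have e1 : T ⁻¹' B' = T.symm '' B' := by
        ext z
        constructor
        · intro hz
          exact ⟨T z, hz, T.symm_apply_apply z⟩
        · rintro ⟨w, hw, rfl⟩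
          rw [mem_preimage, T.apply_symm_apply]
          exact hw
      rw [e1]
      exact T.symm.lipschitz.isBounded_image hbd)
    (T.continuous.measurable hmeas) (fun σ x y hxy hx => by
      rw [mem_preimage] at hx ⊢
      refine hinv (e.trans (σ.trans e.symm)) (T x) (T y) (fun i => ?_) hx
      rw [hT, hT, hxy]
      simp) (T.continuous.measurable hBm) (preimage_mono hsub) (by rw [hv B hBm]; exact hpos) M hM
    (by rw [hv B hBm, hv B' hmeas]; exact hvol)
  have h2 := Pool.Agent.V11317.NC.VarKLS_map T.toLinearIsometry _ _ h1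
  have h3 : Measure.map T.toLinearIsometry (unif (T ⁻¹' B)) = unif B := by
    unfold unif
    have h4 : MeasurePreserving T (volume.restrict (T ⁻¹' B)) (volume.restrict B) :=
      hTmp.restrict_preimage hBm
    have h5 : Measure.map T (volume.restrict (T ⁻¹' B)) = volume.restrict B := h4.map_eq
    rw [Measure.map_smul, hv B hBm]
    exact congrArg _ h5
  rw [h3] at h2
  exact h2

/-- **KLS for direct sums of bodies which satisfy KLS.** Let the coordinates of `ℝ^κ` be divided into `q = |J|`
nonempty blocks and let `B j`, `j ∈ J`, be compact sets with nonempty interior in the blocks, with the barycentre at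
the origin.
(1) If the uniform measures on the `B j` satisfy KLS with the constant `k ≥ 0`, then the uniform measure on every
convex body `K ⊂ ℝ^κ`, all of whose nonempty sections parallel to the block `j` are multiples of `B j`, for every `j`,
satisfies KLS with the constant `3 q (k + 2 q + 2)`.
(2) For every `ψ` as in `Psi` the set of the `x` such that `ψ (‖x_1‖, …, ‖x_q‖) ≤ 1`, where `‖·‖` is the gauge of
`B j`, is such a body `K`, if the `B j` are convex and contain the origin in the interior.
(3) There is an absolute constant `C` such that every body `K` as in (1) satisfies KLS with the constant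
`C q (M³ + q)`, if every `B j` is contained in a bounded measurable convex set `B' j`, invariant under the permutations
of the coordinates in the block, with `|B' j| ≤ M |B j|`, `M ≥ 1`; with `B j = B' j` and `M = 1` these are all
permutation invariant convex bodies with the barycentre at the origin. -/
theorem result :
    (∀ (κ J : Type) [Fintype κ] [Fintype J] [Nonempty J] [DecidableEq J] (c : κ → J),
      Function.Surjective c → ∀ B : ∀ j, Set (EuclideanSpace ℝ {i // c i = j}), (∀ j, Centred (B j)) →
      ∀ k : ℝ, 0 ≤ k → (∀ j, KLS (unif (B j)) k) →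
      ∀ K : Set (EuclideanSpace ℝ κ), IsDirectSum c B K →
      KLS (unif K) (3 * Fintype.card J * (k + 2 * Fintype.card J + 2))) ∧
    (∀ (κ J : Type) [Fintype κ] [DecidableEq J] (c : κ → J)
      (B : ∀ j, Set (EuclideanSpace ℝ {i // c i = j})), (∀ j, Centred (B j)) → (∀ j, Convex ℝ (B j)) →
      (∀ j, 0 ∈ interior (B j)) → ∀ ψ : (J → ℝ) → ℝ, Psi ψ →
      IsDirectSum c B {x | ψ (fun j => gauge (B j) (part c j x)) ≤ 1}) ∧
    (∃ C : ℝ, 0 < C ∧ ∀ (κ J : Type) [Fintype κ] [Fintype J] [Nonempty J] [DecidableEq J] (c : κ → J),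
      Function.Surjective c → ∀ B : ∀ j, Set (EuclideanSpace ℝ {i // c i = j}), (∀ j, Centred (B j)) →
      ∀ M : ℝ, (∀ j, LargeInInvariant (B j) M) →
      ∀ K : Set (EuclideanSpace ℝ κ), IsDirectSum c B K →
      KLS (unif K) (C * Fintype.card J * (M ^ 3 + Fintype.card J))) := by
  have main : ∀ (κ J : Type) [Fintype κ] [Fintype J] [Nonempty J] [DecidableEq J] (c : κ → J),
      Function.Surjective c → ∀ B : ∀ j, Set (EuclideanSpace ℝ {i // c i = j}), (∀ j, Centred (B j)) →
      ∀ k : ℝ, 0 ≤ k → (∀ j, KLS (unif (B j)) k) →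
      ∀ K : Set (EuclideanSpace ℝ κ), IsDirectSum c B K →
      KLS (unif K) (3 * Fintype.card J * (k + 2 * Fintype.card J + 2)) := by
    intro κ J _ _ _ _ c hc B hB k hk hv K hK
    exact Pool.Agent.V11317.NC.sums c hc B (fun j => (hB j).compact) (fun j => (hB j).int)
      (fun j => (hB j).bary) k hk hv K hK.conv hK.compact hK.int hK.sec
  refine ⟨main, ?_, ?_⟩
  · intro κ J _ _ c B hB hBv h0 ψ hψ
    obtain ⟨h1, h2, h3, h4⟩ := Pool.Agent.V11317.NC.psi_facts c ψ
      ⟨hψ.cont, hψ.conv, hψ.mono, hψ.zero, hψ.bdd⟩ B (fun j => (hB j).compact) hBv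
      (fun j => mem_interior_iff_mem_nhds.1 (h0 j))
    exact ⟨h1, h2, h3, h4⟩
  · obtain ⟨C, hC, H⟩ := large
    refine ⟨3 * (C + 4), by positivity, ?_⟩
    intro κ J _ _ _ _ c hc B hB M hM K hK
    have hM1 : 1 ≤ M := (hM (Classical.arbitrary J)).1
    have hM3 : 1 ≤ M ^ 3 := one_le_pow₀ hM1
    have h1 := main κ J c hc B hB (C * M ^ 3) (by positivity) (fun j => by
      obtain ⟨i0, hi0⟩ := hc j
      have hne : Nonempty {i // c i = j} := ⟨⟨i0, hi0⟩⟩
      exact H _ (B j) (hB j).compact (hB j).int M (hM j)) K hK
    refine Pool.Agent.V11317.NC.VarKLS_mono ?_ h1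
    have hq : (1 : ℝ) ≤ Fintype.card J := by
      have : 1 ≤ Fintype.card J := Fintype.card_pos
      exact_mod_cast this
    obtain ⟨q, hq'⟩ : ∃ q : ℝ, q = Fintype.card J := ⟨_, rfl⟩
    rw [← hq'] at hq ⊢
    have h2 : C * M ^ 3 + 2 * q + 2 ≤ (C + 4) * (M ^ 3 + q) := by
      nlinarith [mul_nonneg hC.le (show (0 : ℝ) ≤ q by linarith)]
    calc 3 * q * (C * M ^ 3 + 2 * q + 2) ≤ 3 * q * ((C + 4) * (M ^ 3 + q)) :=
          mul_le_mul_of_nonneg_left h2 (by positivity)
      _ = 3 * (C + 4) * q * (M ^ 3 + q) := by ring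

end Pool.Agent.Results.MP_6d896a_gt.DirectSums
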