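import Pool.Agent.V11317.NC.Rev7
import Pool.Agent.Results.MP_6d896a_gt.LargeSubsets

/-!
# KLS for convex bodies whose parallel sections are homothets of a body which satisfies KLS

Let `K ⊆ ℝ^m × ℝ^n` be a convex body of the form `K = {(t, x) : t ∈ D, x ∈ α(t) + g(t) B}`, where `g ≥ 0` is concave
on the convex set `D` and `α` is affine, for example a cone or a double cone over `B`, the join of `B` with a simplex,
the unit ball of an `ℓ_p` sum of an `m`-dimensional space with the space whose unit ball is `B`, or (if `B` is a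
Euclidean ball) a body of revolution. If the uniform measure on `B` satisfies the inequality of KLS in the variance
form with the constant `k`, then the uniform measure on `K` satisfies it with the constant `k + 3 m + 2`, in every
dimension `n` (for all bodies `B`, without any symmetry). The theorem can be iterated (cones over cones over ...).

Proof. A random point of `K` is `(t, α(t) + g(t) y)` where `y` is uniform on `B` and `t`, independent of `y`, has the
density `g^n / ∫ g^n` on `D`. By the theorem of Prekopa and Leindler, the function `p ↦ (p + n)^m ∫_D g^(p+n)` is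
log-concave in the needed range, so the variance of `g(t)` is at most `m / (n + 1)²` times its second moment. Hence
the fluctuation of `g(t)` moves `g(t) (y - E y)` in `L²` only by about `√m / n` times its length, which is at most
`√n` times the square root of the norm of the covariance matrix. The conditional variance for fixed `t` is controlled
by the inequality for `B`; the fluctuation of the point `(t, α(t) + g(t) E y)`, which lies in an affine subspace of
dimension `m + 1`, by the trivial bound in this subspace.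
-/

set_option autoImplicit false

namespace Pool.Agent.Results.MP_6d896a_gt.Towers

open MeasureTheory Set ProbabilityTheory
open scoped ENNReal InnerProductSpace
open LargeSubsets (KLS unif)

/-- the point `(t, x)` of `ℝ^ι × ℝ^ι' = ℝ^(ι ⊕ ι')` -/
noncomputable def pair {ι ι' : Type} (t : EuclideanSpace ℝ ι) (x : EuclideanSpace ℝ ι') :
    EuclideanSpace ℝ (ι ⊕ ι') := WithLp.toLp 2 (Sum.elim t.ofLp x.ofLp)

/-- `K ⊆ ℝ^ι × ℝ^ι'` is compact with nonempty interior, `K = {(t, x) : t ∈ D, x ∈ α(t) + g(t) B}`, the set `D` is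
convex, `g ≥ 0` is concave on `D`, the functions `α` and `g` are measurable -/
structure IsTower {ι ι' : Type} [Fintype ι] [Fintype ι'] (B : Set (EuclideanSpace ℝ ι'))
    (D : Set (EuclideanSpace ℝ ι)) (α : EuclideanSpace ℝ ι → EuclideanSpace ℝ ι')
    (g : EuclideanSpace ℝ ι → ℝ) (K : Set (EuclideanSpace ℝ (ι ⊕ ι'))) : Prop where
  measα : Measurable α
  measg : Measurable g
  nonneg : ∀ t ∈ D, 0 ≤ g t
  conc : ConcaveOn ℝ D g
  compact : IsCompact K
  int : (interior K).Nonempty
  mem : ∀ t x, pair t x ∈ K ↔ t ∈ D ∧ ∃ y ∈ B, x = α t + g t • y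

/-- **KLS for bodies over a body which satisfies KLS.** Let `B ⊆ ℝ^ι'` (of dimension at least one) be compact with
nonempty interior, such that the uniform measure on `B` satisfies KLS with the constant `k`, and let
`K = {(t, x) : t ∈ D, x ∈ α(t) + g(t) B} ⊆ ℝ^ι × ℝ^ι'` as in `IsTower`, `m = |ι|`.
(1) If the points `(t, α(t))`, `t ∈ D`, lie in the affine subspace `p + V`, then the uniform measure on `K` satisfies
KLS with the constant `k + 2 (dim V + 1) + m / 2`.
(2) If `α` is affine, then the uniform measure on `K` satisfies KLS with the constant `k + 3 m + 2`.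
(3) There is an absolute constant `C` such that (2) holds with the constant `C M³ + 3 m` for all `B ⊆ ℝ^n` which are
contained in a bounded measurable convex set `B'`, invariant under the permutations of the coordinates of `ℝ^n`, with
`|B'| ≤ M |B|`, `M ≥ 1`; with `B = B'` and `M = 1` these are all permutation invariant convex bodies. -/
theorem result :
    (∀ (ι ι' : Type) [Fintype ι] [Fintype ι'] [Nonempty ι'] (B : Set (EuclideanSpace ℝ ι'))
      (D : Set (EuclideanSpace ℝ ι)) (α : EuclideanSpace ℝ ι → EuclideanSpace ℝ ι')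
      (g : EuclideanSpace ℝ ι → ℝ) (K : Set (EuclideanSpace ℝ (ι ⊕ ι'))), IsCompact B → (interior B).Nonempty →
      IsTower B D α g K → ∀ k : ℝ, KLS (unif B) k →
      ∀ (V : Submodule ℝ (EuclideanSpace ℝ (ι ⊕ ι'))) (p : EuclideanSpace ℝ (ι ⊕ ι')),
      (∀ t ∈ D, pair t (α t) - p ∈ V) →
      KLS (unif K) (k + 2 * (Module.finrank ℝ V + 1) + Fintype.card ι / 2)) ∧
    (∀ (ι ι' : Type) [Fintype ι] [Fintype ι'] [Nonempty ι'] (B : Set (EuclideanSpace ℝ ι'))
      (D : Set (EuclideanSpace ℝ ι)) (α : EuclideanSpace ℝ ι →ᵃ[ℝ] EuclideanSpace ℝ ι')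
      (g : EuclideanSpace ℝ ι → ℝ) (K : Set (EuclideanSpace ℝ (ι ⊕ ι'))), IsCompact B → (interior B).Nonempty →
      IsTower B D α g K → ∀ k : ℝ, KLS (unif B) k → KLS (unif K) (k + 3 * Fintype.card ι + 2)) ∧
    (∃ C : ℝ, 0 < C ∧ ∀ n : ℕ, 1 ≤ n → ∀ B B' : Set (EuclideanSpace ℝ (Fin n)), Convex ℝ B' →
      Bornology.IsBounded B' → MeasurableSet B' →
      (∀ σ : Equiv.Perm (Fin n), ∀ x y : EuclideanSpace ℝ (Fin n), (∀ i, y i = x (σ i)) → x ∈ B' → y ∈ B') →
      IsCompact B → (interior B).Nonempty → B ⊆ B' → ∀ M : ℝ, 1 ≤ M → volume B' ≤ ENNReal.ofReal M * volume B →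
      ∀ (m : ℕ) (D : Set (EuclideanSpace ℝ (Fin m)))
        (α : EuclideanSpace ℝ (Fin m) →ᵃ[ℝ] EuclideanSpace ℝ (Fin n)) (g : EuclideanSpace ℝ (Fin m) → ℝ)
        (K : Set (EuclideanSpace ℝ (Fin m ⊕ Fin n))), IsTower B D α g K →
      KLS (unif K) (C * M ^ 3 + 3 * m)) := by
  have main : ∀ (ι ι' : Type) [Fintype ι] [Fintype ι'] [Nonempty ι'] (B : Set (EuclideanSpace ℝ ι'))
      (D : Set (EuclideanSpace ℝ ι)) (α : EuclideanSpace ℝ ι → EuclideanSpace ℝ ι')
      (g : EuclideanSpace ℝ ι → ℝ) (K : Set (EuclideanSpace ℝ (ι ⊕ ι'))), IsCompact B → (interior B).Nonempty →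
      IsTower B D α g K → ∀ k : ℝ, KLS (unif B) k →
      ∀ (V : Submodule ℝ (EuclideanSpace ℝ (ι ⊕ ι'))) (p : EuclideanSpace ℝ (ι ⊕ ι')),
      (∀ t ∈ D, pair t (α t) - p ∈ V) →
      KLS (unif K) (k + 2 * (Module.finrank ℝ V + 1) + Fintype.card ι / 2) := by
    intro ι ι' _ _ _ B D α g K hB hBi hT k hk V p hV
    refine Pool.Agent.V11317.NC.tower B hB hBi k hk D g hT.measg hT.nonneg hT.conc α hT.measα V p hV K
      hT.compact hT.int fun z => ?_
    have h1 := hT.mem (Pool.Agent.V11317.NC.lft z) (Pool.Agent.V11317.NC.rgt z)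
    have h2 : pair (Pool.Agent.V11317.NC.lft z) (Pool.Agent.V11317.NC.rgt z) = z :=
      Pool.Agent.V11317.NC.jn_lr z
    rwa [h2] at h1
  have aff : ∀ (ι ι' : Type) [Fintype ι] [Fintype ι'] [Nonempty ι'] (B : Set (EuclideanSpace ℝ ι'))
      (D : Set (EuclideanSpace ℝ ι)) (α : EuclideanSpace ℝ ι →ᵃ[ℝ] EuclideanSpace ℝ ι')
      (g : EuclideanSpace ℝ ι → ℝ) (K : Set (EuclideanSpace ℝ (ι ⊕ ι'))), IsCompact B → (interior B).Nonempty →
      IsTower B D α g K → ∀ k : ℝ, KLS (unif B) k → KLS (unif K) (k + 3 * Fintype.card ι + 2) := by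
    intro ι ι' _ _ _ B D α g K hB hBi hT k hk
    obtain ⟨L, hL⟩ : ∃ L : EuclideanSpace ℝ ι →ₗ[ℝ] EuclideanSpace ℝ (ι ⊕ ι'),
        ∀ v, L v = pair v (α.linear v) := by
      refine ⟨⟨⟨fun v => pair v (α.linear v), fun x y => ?_⟩, fun r x => ?_⟩, fun v => rfl⟩
      · rw [map_add]
        exact Pool.Agent.V11317.NC.jn_add (x, α.linear x) (y, α.linear y)
      · change pair (r • x) (α.linear (r • x)) = r • pair x (α.linear x)
        rw [map_smul]
        exact Pool.Agent.V11317.NC.jn_smul r (x, α.linear x)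
    have h1 := main ι ι' B D α g K hB hBi hT k hk (LinearMap.range L) (pair 0 (α 0)) (fun t _ => by
      refine ⟨t, ?_⟩
      rw [hL, eq_sub_iff_add_eq]
      have h2 : α t = α.linear t + α 0 := by
        have := congrFun α.decomp t
        simpa using this
      rw [h2]
      have h3 := Pool.Agent.V11317.NC.jn_add (t, α.linear t) ((0 : EuclideanSpace ℝ ι), α 0)
      rw [Prod.mk_add_mk, add_zero] at h3
      exact h3.symm)
    refine Pool.Agent.V11317.NC.VarKLS_mono ?_ h1
    have h4 : (Module.finrank ℝ (LinearMap.range L) : ℝ) ≤ Fintype.card ι := by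
      have h5 := LinearMap.finrank_range_le L
      rw [finrank_euclideanSpace] at h5
      exact_mod_cast h5
    have h6 : (0 : ℝ) ≤ Fintype.card ι := by positivity
    linarith
  refine ⟨main, aff, ?_⟩
  obtain ⟨C, hC, -, -, -, -, H⟩ := LargeSubsets.result.2
  refine ⟨C + 2, by positivity, ?_⟩
  intro n hn B B' hconv hbd hmeas hinv hB hBi hsub M hM hvol m D α g K hT
  have hpos : 0 < volume B := Measure.measure_pos_of_nonempty_interior volume hBi
  have h1 := H n hn B B' hconv hbd hmeas hinv hB.measurableSet hsub hpos M hM hvol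
  have hne : Nonempty (Fin n) := ⟨⟨0, hn⟩⟩
  have h2 := aff (Fin m) (Fin n) B D α g K hB hBi hT _ h1
  refine Pool.Agent.V11317.NC.VarKLS_mono ?_ h2
  rw [Fintype.card_fin]
  have h3 : (1 : ℝ) ≤ M ^ 3 := one_le_pow₀ hM
  linarith

end Pool.Agent.Results.MP_6d896a_gt.Towers
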