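import Pool.Agent.V11317.NC.Base2
import Pool.Agent.Results.MP_6d896a_gt.Towers

/-!
# KLS for convex bodies whose sections are homothets of a body which satisfies KLS, over a symmetric base

Let `K ⊆ ℝ^m × ℝ^n` be a convex body of the form `K = {(t, x) : t ∈ D, x ∈ g(t) B}`, where the barycentre of `B` is
`0`. If the uniform measure on `B` satisfies the variance form of KLS with the constant `k` and the law of `t`
satisfies it with the constant `k'`, then the uniform measure on `K` satisfies it with the constant `k + 2 k' + 4`, in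
all dimensions `m` and `n`. The law of `t` has the density `g^n / ∫ g^n` on `D`; if `D` and `g` are invariant under
permutations of the coordinates of `ℝ^m` (or under another one of the groups of the starting files), this is a
log-concave density with the same symmetry, so `k'` is an absolute constant. The body `B` need not have any symmetry.

Proof. A random point of `K` is `(t, g(t) y)` where `y` is uniform on `B` and independent of `t`. By the theorem of
Prekopa and Leindler, the variance of `g(t)` is at most `2 / (n + 2)` times its second moment, for every dimension `m`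
of the base. So the fluctuation of `g(t)` moves the point `g(t) y` in `L²` only by about `√(2 / n)` times its length,
which is at most `√n` times the square root of the norm of the covariance matrix. The conditional variance for fixed
`t` is controlled by the inequality for `B`, the fluctuation of `t` by the inequality for the law of `t`.
-/

set_option autoImplicit false

namespace Pool.Agent.Results.MP_6d896a_gt.SymmetricBase

open MeasureTheory Set ProbabilityTheory
open scoped ENNReal InnerProductSpace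
open LargeSubsets (KLS unif)
open Towers (IsTower pair)

/-- the first component of the point `(t, x)` of `ℝ^ι × ℝ^ι' = ℝ^(ι ⊕ ι')` -/
noncomputable def left {ι ι' : Type} (z : EuclideanSpace ℝ (ι ⊕ ι')) : EuclideanSpace ℝ ι :=
  WithLp.toLp 2 fun i => z (Sum.inl i)

/-- the law of the barycentre `(t, α(t) + g(t) b)` of the section of `K` through a random point `(t, x)` of `K`,
where `b` is the barycentre of `B` -/
noncomputable def baryLaw {ι ι' : Type} [Fintype ι] [Fintype ι'] (B : Set (EuclideanSpace ℝ ι'))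
    (α : EuclideanSpace ℝ ι → EuclideanSpace ℝ ι') (g : EuclideanSpace ℝ ι → ℝ)
    (K : Set (EuclideanSpace ℝ (ι ⊕ ι'))) : Measure (EuclideanSpace ℝ (ι ⊕ ι')) :=
  Measure.map (fun z => pair (left z) (α (left z) + g (left z) • ∫ y, y ∂(unif B))) (unif K)

/-- `B ⊆ ℝ^ι'` (of dimension at least one) is compact with nonempty interior and
`K = {(t, x) : t ∈ D, x ∈ α(t) + g(t) B}` (`IsTower`) -/
structure Over {ι ι' : Type} [Fintype ι] [Fintype ι'] (B : Set (EuclideanSpace ℝ ι'))
    (D : Set (EuclideanSpace ℝ ι)) (α : EuclideanSpace ℝ ι → EuclideanSpace ℝ ι')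
    (g : EuclideanSpace ℝ ι → ℝ) (K : Set (EuclideanSpace ℝ (ι ⊕ ι'))) : Prop where
  dim : Nonempty ι'
  compact : IsCompact B
  int : (interior B).Nonempty
  tower : IsTower B D α g K

/-- `K = {(t, x) : t ∈ D, x ∈ g(t) B}`, the barycentre of `B` is `0`, and `D` and `g` are invariant under the
relation `R` -/
structure SymOver {ι ι' : Type} [Fintype ι] [Fintype ι'] (R : EuclideanSpace ℝ ι → EuclideanSpace ℝ ι → Prop)
    (B : Set (EuclideanSpace ℝ ι')) (K : Set (EuclideanSpace ℝ (ι ⊕ ι'))) : Prop where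
  bary : ∫ x in B, x = 0
  sections : ∃ (D : Set (EuclideanSpace ℝ ι)) (g : EuclideanSpace ℝ ι → ℝ), Over B D (fun _ => 0) g K ∧
    ∀ s t, R s t → s ∈ D → t ∈ D ∧ g t = g s

/-- `t` is obtained from `s` by a permutation of the coordinates -/
def Permuted {m : ℕ} (s t : EuclideanSpace ℝ (Fin m)) : Prop :=
  ∃ σ : Equiv.Perm (Fin m), ∀ i, t i = s (σ i)

/-- `t` is obtained from `s` by a permutation of the `N` particles in `ℝ^d` which preserves the species -/
def PermutedSpecies {N d q : ℕ} (b : Fin N → Fin q) (s t : Particles.Conf N d) : Prop :=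
  ∃ σ : Equiv.Perm (Fin N), (∀ i, b (σ i) = b i) ∧ ∀ i α, t (i, α) = s (σ i, α)

/-- the norms of the vectors of `t` are those of `s`, up to a permutation in each block -/
def SameNorms {b : ℕ} {k m : Fin b → ℕ} (s t : RadialBlocks.Space b k m) : Prop :=
  ∃ σ : ∀ β, Equiv.Perm (Fin (k β)), ∀ β j, RadialBlocks.vecNorm t β j = RadialBlocks.vecNorm s β (σ β j)

/-- `B ⊆ ℝ^n` is contained in a bounded measurable convex set `B'`, invariant under the permutations of the
coordinates of `ℝ^n`, with `|B'| ≤ M |B|`, `M ≥ 1` -/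
def LargeInInvariant {n : ℕ} (B : Set (EuclideanSpace ℝ (Fin n))) (M : ℝ) : Prop :=
  1 ≤ M ∧ ∃ B' : Set (EuclideanSpace ℝ (Fin n)), Convex ℝ B' ∧ Bornology.IsBounded B' ∧ MeasurableSet B' ∧
    (∀ σ : Equiv.Perm (Fin n), ∀ x y : EuclideanSpace ℝ (Fin n), (∀ i, y i = x (σ i)) → x ∈ B' → y ∈ B') ∧
    B ⊆ B' ∧ volume B' ≤ ENNReal.ofReal M * volume B

theorem mem_of {ι ι' : Type} [Fintype ι] [Fintype ι'] {B : Set (EuclideanSpace ℝ ι')}
    {D : Set (EuclideanSpace ℝ ι)} {α : EuclideanSpace ℝ ι → EuclideanSpace ℝ ι'}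
    {g : EuclideanSpace ℝ ι → ℝ} {K : Set (EuclideanSpace ℝ (ι ⊕ ι'))} (hT : IsTower B D α g K)
    (z : EuclideanSpace ℝ (ι ⊕ ι')) :
    z ∈ K ↔ Pool.Agent.V11317.NC.lft z ∈ D ∧ ∃ y ∈ B, Pool.Agent.V11317.NC.rgt z =
      α (Pool.Agent.V11317.NC.lft z) + g (Pool.Agent.V11317.NC.lft z) • y := by
  have h1 := hT.mem (Pool.Agent.V11317.NC.lft z) (Pool.Agent.V11317.NC.rgt z)
  have h2 : pair (Pool.Agent.V11317.NC.lft z) (Pool.Agent.V11317.NC.rgt z) = z :=
    Pool.Agent.V11317.NC.jn_lr z
  rwa [h2] at h1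

/-- the law of `t` -/
theorem law {ι ι' : Type} [Fintype ι] [Fintype ι'] (R : EuclideanSpace ℝ ι → EuclideanSpace ℝ ι → Prop)
    (hR : ∀ s t, R s t → R t s) (B : Set (EuclideanSpace ℝ ι')) (K : Set (EuclideanSpace ℝ (ι ⊕ ι')))
    (h : SymOver R B K) :
    (∃ ρ : EuclideanSpace ℝ ι → ℝ, Pool.Agent.V11298.KD.LC ρ ∧
      IsProbabilityMeasure (Pool.Agent.V11298.KD.mu ρ) ∧ (∀ s t, R s t → ρ t = ρ s) ∧
      Measure.map left (unif K) = Pool.Agent.V11298.KD.mu ρ) ∧
    ∀ k k' : ℝ, KLS (unif B) k → KLS (Measure.map left (unif K)) k' → KLS (unif K) (k + 2 * k' + 4) := by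
  obtain ⟨hb, D, g, hO, hinv⟩ := h
  have := hO.dim
  have hT := hO.tower
  obtain ⟨⟨ρ, h1, h2, h3, h4⟩, h5⟩ := Pool.Agent.V11317.NC.base_sym B hO.compact hO.int hb D g
    hT.measg hT.nonneg hT.conc K hT.compact hT.int (fun z => by
      have := mem_of hT z
      simpa only [zero_add] using this)
  refine ⟨⟨ρ, h1, h2, fun s t hst => ?_, h4⟩, h5⟩
  exact (h3 s t ⟨fun hs => (hinv s t hst hs).1, fun ht => (hinv t s (hR s t hst) ht).1⟩
    fun hs => (hinv s t hst hs).2.symm).symm

/-- **KLS for convex bodies over a symmetric base.**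
(1) Let `K = {(t, x) : t ∈ D, x ∈ α(t) + g(t) B} ⊆ ℝ^ι × ℝ^ι'` (`Over`). If the uniform measure on `B` satisfies KLS
with the constant `k` and the law of the barycentres of the sections of `K` with the constant `k'`, then the uniform
measure on `K` satisfies KLS with the constant `k + 2 k' + 4`.
(2) If `α = 0` and the barycentre of `B` is `0`, then this holds with the law of `t` in place of `baryLaw`.
(3)-(5) So there is an absolute constant `C` such that, if `α = 0`, the barycentre of `B` is `0` and the uniform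
measure on `B` satisfies KLS with the constant `k`, the uniform measure on `K` satisfies KLS with the constant `k + C`
if `D` and `g` are invariant under the permutations of the coordinates of `ℝ^m`, `m ≥ 1`, with the constant
`k + C q d⁴ (1 + log q)²` if they are invariant under the permutations of `N` particles in `ℝ^d` of `q` species which
preserve the species, and with `k + C (1 + T)²` if they are radial in each vector and symmetric in blocks of `l_β`
vectors in `ℝ^(m_β)` with `∑_β exp (- T l_β m_β) ≤ 1` (for example a Euclidean ball as base and radial `g`,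
`T = 0`).
(6) With the same constant `C`, the uniform measure on `K` in (3) satisfies KLS with the constant `C M³` if `B ⊆ ℝ^n`
is a large subset of a permutation invariant convex set (`LargeInInvariant B M`), for all `m` and `n`; and if `K` is
convex, every measurable subset `A` of `K` with `|K| ≤ L |A|`, `L ≥ 1`, satisfies KLS with the constant `C M³ L³`. -/
theorem result :
    (∀ (ι ι' : Type) [Fintype ι] [Fintype ι'] (B : Set (EuclideanSpace ℝ ι'))
      (D : Set (EuclideanSpace ℝ ι)) (α : EuclideanSpace ℝ ι → EuclideanSpace ℝ ι')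
      (g : EuclideanSpace ℝ ι → ℝ) (K : Set (EuclideanSpace ℝ (ι ⊕ ι'))), Over B D α g K → ∀ k k' : ℝ,
      KLS (unif B) k → KLS (baryLaw B α g K) k' → KLS (unif K) (k + 2 * k' + 4)) ∧
    (∀ (ι ι' : Type) [Fintype ι] [Fintype ι'] (B : Set (EuclideanSpace ℝ ι'))
      (K : Set (EuclideanSpace ℝ (ι ⊕ ι'))), SymOver Eq B K → ∀ k k' : ℝ,
      KLS (unif B) k → KLS (Measure.map left (unif K)) k' → KLS (unif K) (k + 2 * k' + 4)) ∧
    (∃ C : ℝ, 0 < C ∧
      (∀ m : ℕ, 1 ≤ m → ∀ (ι' : Type) [Fintype ι'] (B : Set (EuclideanSpace ℝ ι'))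
        (K : Set (EuclideanSpace ℝ (Fin m ⊕ ι'))), SymOver Permuted B K → ∀ k : ℝ, KLS (unif B) k →
        KLS (unif K) (k + C)) ∧
      (∀ N d q : ℕ, 1 ≤ N → 1 ≤ d → ∀ b : Fin N → Fin q, Function.Surjective b →
        ∀ (ι' : Type) [Fintype ι'] (B : Set (EuclideanSpace ℝ ι'))
        (K : Set (EuclideanSpace ℝ ((Fin N × Fin d) ⊕ ι'))), SymOver (PermutedSpecies b) B K →
        ∀ k : ℝ, KLS (unif B) k → KLS (unif K) (k + C * (q * (d : ℝ) ^ 4 * (1 + Real.log q) ^ 2))) ∧
      (∀ (b : ℕ) (l m : Fin b → ℕ), (∀ β, 1 ≤ l β) → (∀ β, 1 ≤ m β) →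
        ∀ T : ℝ, 0 ≤ T → ∑ β, Real.exp (-(T * (l β * m β))) ≤ 1 →
        ∀ (ι' : Type) [Fintype ι'] (B : Set (EuclideanSpace ℝ ι'))
        (K : Set (EuclideanSpace ℝ ((Σ β : Fin b, Fin (l β) × Fin (m β)) ⊕ ι'))), SymOver SameNorms B K →
        ∀ k : ℝ, KLS (unif B) k → KLS (unif K) (k + C * (1 + T) ^ 2)) ∧
      (∀ m : ℕ, 1 ≤ m → ∀ (n : ℕ) (B : Set (EuclideanSpace ℝ (Fin n)))
        (K : Set (EuclideanSpace ℝ (Fin m ⊕ Fin n))) (M : ℝ), LargeInInvariant B M → SymOver Permuted B K →
        KLS (unif K) (C * M ^ 3) ∧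
        (Convex ℝ K → ∀ A ⊆ K, MeasurableSet A → ∀ L : ℝ, 1 ≤ L → volume K ≤ ENNReal.ofReal L * volume A →
          KLS (unif A) (C * M ^ 3 * L ^ 3)))) := by
  obtain ⟨C1, hC1, H1⟩ := Exchangeable.result
  obtain ⟨C2, hC2, H2⟩ := Particles.result
  obtain ⟨C3, hC3, H3⟩ := RadialBlocks.result
  obtain ⟨C4, hC4, -, -, -, -, H4⟩ := LargeSubsets.result.2
  have base := LargeSubsets.result.1
  obtain ⟨C, hC⟩ : ∃ C : ℝ, C = 114 * (2 * C1 + 2 * C2 + 2 * C3 + C4 + 4) := ⟨_, rfl⟩
  have hC0 : 0 < C := by rw [hC]; positivity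
  have exch : ∀ m : ℕ, 1 ≤ m → ∀ (ι' : Type) [Fintype ι'] (B : Set (EuclideanSpace ℝ ι'))
        (K : Set (EuclideanSpace ℝ (Fin m ⊕ ι'))), SymOver Permuted B K → ∀ k : ℝ, KLS (unif B) k →
        KLS (unif K) (k + (2 * C1 + 4)) := by
    intro m hm ι' _ B K h k hk
    obtain ⟨⟨ρ, h1, h2, h3, h4⟩, h5⟩ := law Permuted (fun s t ⟨σ, hσ⟩ => ⟨σ.symm, fun i => by
      rw [hσ, Equiv.apply_symm_apply]⟩) B K h
    have h6 : KLS (Measure.map left (unif K)) C1 := by
      rw [h4]
      exact fun s hs hcov f hf hf1 => (H1 m hm ρ ⟨h1.nonneg, h1.meas, h1.logc, fun σ x y hxy =>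
        h3 x y ⟨σ, hxy⟩⟩ _ rfl h2 s hs hcov f hf).1 hf1
    refine Pool.Agent.V11317.NC.VarKLS_mono ?_ (h5 k C1 hk h6)
    linarith
  refine ⟨?_, ?_, C, hC0, ?_, ?_, ?_, ?_⟩
  · intro ι ι' _ _ B D α g K hO k k' hk hk'
    have := hO.dim
    have hT := hO.tower
    exact Pool.Agent.V11317.NC.tower2 B hO.compact hO.int k hk D g hT.measg hT.nonneg hT.conc α hT.measα K
      hT.compact hT.int (mem_of hT) k' hk'
  · intro ι ι' _ _ B K h
    exact (law Eq (fun s t => Eq.symm) B K h).2
  · intro m hm ι' _ B K h k hk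
    refine Pool.Agent.V11317.NC.VarKLS_mono ?_ (exch m hm ι' B K h k hk)
    rw [hC]
    linarith
  · intro N d q hN hd b hb ι' _ B K h k hk
    obtain ⟨⟨ρ, h1, h2, h3, h4⟩, h5⟩ := law (PermutedSpecies b) (fun s t ⟨σ, hσ, hst⟩ =>
      ⟨σ.symm, fun i => by
        have := hσ (σ.symm i)
        rw [Equiv.apply_symm_apply] at this
        exact this.symm, fun i α => by
        rw [hst, Equiv.apply_symm_apply]⟩) B K h
    obtain ⟨c, hc⟩ : ∃ c : ℝ, c = q * (d : ℝ) ^ 4 * (1 + Real.log q) ^ 2 := ⟨_, rfl⟩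
    have hq : 1 ≤ q := by
      have h1 : 0 < q := Fin.pos (b ⟨0, hN⟩)
      exact h1
    have hc1 : 1 ≤ c := by
      rw [hc]
      have hlog : 0 ≤ Real.log q := Real.log_nonneg (by exact_mod_cast hq)
      have e1 : (1 : ℝ) ≤ q := by exact_mod_cast hq
      have e2 : (1 : ℝ) ≤ (d : ℝ) ^ 4 := one_le_pow₀ (by exact_mod_cast hd)
      have e3 : (1 : ℝ) ≤ (1 + Real.log q) ^ 2 := one_le_pow₀ (by linarith)
      exact one_le_mul_of_one_le_of_one_le (one_le_mul_of_one_le_of_one_le e1 e2) e3
    rw [← hc]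
    have h6 : KLS (Measure.map left (unif K)) (C2 * c) := by
      rw [h4, hc]
      exact fun s hs hcov f hf hf1 => (H2 N d q hN hd b hb ρ ⟨h1.nonneg, h1.meas, h1.logc,
        fun σ hσ x y hxy => h3 x y ⟨σ, hσ, hxy⟩⟩ _ rfl h2 s hs hcov f hf).1 hf1
    refine Pool.Agent.V11317.NC.VarKLS_mono ?_ (h5 k _ hk h6)
    have h7 : 2 * (C2 * c) + 4 ≤ (2 * C2 + 4) * c := by nlinarith
    have h8 : (2 * C2 + 4) * c ≤ C * c := mul_le_mul_of_nonneg_right (by rw [hC]; linarith) (by linarith)
    linarith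
  · intro b l m hl hm T hT0 hT ι' _ B K h k hk
    obtain ⟨⟨ρ, h1, h2, h3, h4⟩, h5⟩ := law SameNorms (fun s t ⟨σ, hσ⟩ =>
      ⟨fun β => (σ β).symm, fun β j => by
        rw [hσ, Equiv.apply_symm_apply]⟩) B K h
    obtain ⟨c, hc⟩ : ∃ c : ℝ, c = (1 + T) ^ 2 := ⟨_, rfl⟩
    have hc1 : 1 ≤ c := by
      rw [hc]
      exact one_le_pow₀ (by linarith)
    rw [← hc]
    have h6 : KLS (Measure.map left (unif K)) (C3 * c) := by
      rw [h4, hc]
      exact fun s hs hcov f hf hf1 => H3 b l m hl hm T hT0 hT ρ ⟨h1.nonneg, h1.meas, h1.logc,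
        fun σ x y hxy => h3 x y ⟨σ, hxy⟩⟩ _ rfl h2 s hs hcov f hf hf1
    refine Pool.Agent.V11317.NC.VarKLS_mono ?_ (h5 k _ hk h6)
    have h7 : 2 * (C3 * c) + 4 ≤ (2 * C3 + 4) * c := by nlinarith
    have h8 : (2 * C3 + 4) * c ≤ C * c := mul_le_mul_of_nonneg_right (by rw [hC]; linarith) (by linarith)
    linarith
  · intro m hm n B K M ⟨hM, B', hconv, hbd, hmeas, hinv, hsub, hvol⟩ h
    obtain ⟨D, g, hO, -⟩ := h.sections
    have hn : 1 ≤ n := by
      have h1 := hO.dim
      have h2 : 0 < Fintype.card (Fin n) := Fintype.card_pos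
      rw [Fintype.card_fin] at h2
      exact h2
    have hpos : 0 < volume B := Measure.measure_pos_of_nonempty_interior volume hO.int
    have h1 := H4 n hn B B' hconv hbd hmeas hinv hO.compact.measurableSet hsub hpos M hM hvol
    have h2 := exch m hm (Fin n) B K h _ h1
    have hM3 : (1 : ℝ) ≤ M ^ 3 := one_le_pow₀ hM
    have h3 : KLS (unif K) ((2 * C1 + C4 + 4) * M ^ 3) := by
      refine Pool.Agent.V11317.NC.VarKLS_mono ?_ h2
      nlinarith
    constructor
    · refine Pool.Agent.V11317.NC.VarKLS_mono (mul_le_mul_of_nonneg_right ?_ (by linarith)) h3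
      rw [hC]
      linarith
    · intro hKco A hAK hAm L hL hvolA
      have hT := hO.tower
      have hKpos : 0 < volume K := Measure.measure_pos_of_nonempty_interior volume hT.int
      have hKfin : volume K ≠ ⊤ := hT.compact.measure_lt_top.ne
      have hApos : volume A ≠ 0 := by
        intro h0
        rw [h0, mul_zero] at hvolA
        exact hKpos.ne' (nonpos_iff_eq_zero.1 hvolA)
      have hAfin : volume A ≠ ⊤ := ne_top_of_le_ne_top hKfin (measure_mono hAK)
      obtain ⟨ρ, g1, g2, -⟩ := Pool.Agent.V11317.NC.unif_density K hT.compact hKco hT.int _ rfl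
      have hKp : IsProbabilityMeasure (Pool.Agent.V11298.KD.mu ρ) := by
        rw [g2]
        exact Pool.Agent.V11317.NC.prob K hT.compact hT.int _ rfl
      have hAp : IsProbabilityMeasure (unif A) := by
        refine ⟨?_⟩
        unfold unif
        rw [Measure.smul_apply, Measure.restrict_apply_univ, smul_eq_mul]
        exact ENNReal.inv_mul_cancel hApos hAfin
      have h4 := base _ ρ g1 hKp ((2 * C1 + C4 + 4) * M ^ 3) (by rw [g2]; exact h3) (unif A) L hAp hL (by
        intro E hE
        rw [g2]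
        unfold unif
        rw [Measure.smul_apply, Measure.smul_apply, smul_eq_mul, smul_eq_mul, Measure.restrict_apply hE,
          Measure.restrict_apply hE]
        have e1 : volume (E ∩ A) ≤ volume (E ∩ K) := measure_mono (inter_subset_inter_right _ hAK)
        have e2 : (volume A)⁻¹ ≤ ENNReal.ofReal L * (volume K)⁻¹ := by
          calc (volume A)⁻¹ = (volume A)⁻¹ * (volume K * (volume K)⁻¹) := by
                rw [ENNReal.mul_inv_cancel hKpos.ne' hKfin, mul_one]
            _ ≤ (volume A)⁻¹ * ((ENNReal.ofReal L * volume A) * (volume K)⁻¹) :=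
                mul_le_mul' le_rfl (mul_le_mul' hvolA le_rfl)
            _ = ((volume A)⁻¹ * volume A) * (ENNReal.ofReal L * (volume K)⁻¹) := by ring
            _ = _ := by rw [ENNReal.inv_mul_cancel hApos hAfin, one_mul]
        calc (volume A)⁻¹ * volume (E ∩ A) ≤ (ENNReal.ofReal L * (volume K)⁻¹) * volume (E ∩ K) :=
              mul_le_mul' e2 e1
          _ = _ := by rw [mul_assoc])
      refine Pool.Agent.V11317.NC.VarKLS_mono ?_ h4
      have h5 : 114 * ((2 * C1 + C4 + 4) * M ^ 3) ≤ C * M ^ 3 := by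
        rw [← mul_assoc]
        refine mul_le_mul_of_nonneg_right ?_ (by linarith)
        rw [hC]
        linarith
      exact mul_le_mul_of_nonneg_right h5 (by positivity)

end Pool.Agent.Results.MP_6d896a_gt.SymmetricBase
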